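import Mathlib
import Pool.Agent.KS6_96.MB.Uniq
import Pool.Agent.KS6_96.MB.Ex3
import Pool.Agent.KS6_96.MB.Ex4
import Pool.Agent.KS6_96.MB.Ex46
import Pool.Agent.KS6_96.MB.Ex5
set_option autoImplicit false
namespace Pool.Agent.Results.MP_d7b467_co.SizeThreshold

/-- Nonnegative integer `I × J × K` tables. -/
abbrev Table (I J K : ℕ) := Fin I → Fin J → Fin K → ℕ

/-- Integer `I × J × K` arrays. -/
abbrev Arr (I J K : ℕ) := Fin I → Fin J → Fin K → ℤ

/-- The three families of two-way margins of `u` and `v` agree. -/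
def SameMargins {I J K : ℕ} (u v : Table I J K) : Prop :=
  (∀ i j, ∑ k, u i j k = ∑ k, v i j k) ∧ (∀ i k, ∑ j, u i j k = ∑ j, v i j k) ∧
    (∀ j k, ∑ i, u i j k = ∑ i, v i j k)

/-- A move: an integer array all of whose two-way margins vanish. -/
def IsMove {I J K : ℕ} (m : Arr I J K) : Prop :=
  (∀ i j, ∑ k, m i j k = 0) ∧ (∀ i k, ∑ j, m i j k = 0) ∧ (∀ j k, ∑ i, m i j k = 0)

/-- The table `w'` is obtained from the table `w` by adding or subtracting one array of `B`. -/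
def Step {I J K : ℕ} (B : Finset (Arr I J K)) (w w' : Table I J K) : Prop :=
  ∃ m ∈ B, (∀ i j k, (w' i j k : ℤ) = (w i j k : ℤ) + m i j k) ∨
    (∀ i j k, (w' i j k : ℤ) = (w i j k : ℤ) - m i j k)

/-- A finite set of moves connecting any two tables with the same margins through tables. -/
def IsMarkovBasis {I J K : ℕ} (B : Finset (Arr I J K)) : Prop :=
  (∀ m ∈ B, IsMove m) ∧
    ∀ u v : Table I J K, SameMargins u v → Relation.ReflTransGen (Step B) u v

/-- A Markov basis no proper subset of which is a Markov basis. -/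
def IsMinimalBasis {I J K : ℕ} (B : Finset (Arr I J K)) : Prop :=
  IsMarkovBasis B ∧ ∀ C, C ⊂ B → ¬ IsMarkovBasis C

/-- A minimal Markov basis exists, and any two of them agree up to the signs of the moves. -/
def UniqueBasis (I J K : ℕ) : Prop :=
  (∃ B : Finset (Arr I J K), IsMinimalBasis B) ∧
    ∀ B B' : Finset (Arr I J K), IsMinimalBasis B → IsMinimalBasis B' →
      ∀ m : Arr I J K, (m ∈ B ∨ -m ∈ B) ↔ (m ∈ B' ∨ -m ∈ B')

/-- Two minimal Markov bases, one of which has a move absent from the other up to sign. -/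
def DistinctBases (I J K : ℕ) : Prop :=
  ∃ B B' : Finset (Arr I J K), IsMinimalBasis B ∧ IsMinimalBasis B' ∧ ∃ m ∈ B, m ∉ B' ∧ -m ∉ B'

/-- Some ordering of the three sides dominates `3 × 7 × 10`, `4 × 5 × 10`, `4 × 6 × 8` or
`5 × 5 × 6`. -/
def Large (I J K : ℕ) : Prop :=
  ∃ s ∈ ([(3, 7, 10), (4, 5, 10), (4, 6, 8), (5, 5, 6)] : List (ℕ × ℕ × ℕ)),
    ∃ t ∈ ([(I, J, K), (I, K, J), (J, I, K), (J, K, I), (K, I, J), (K, J, I)] : List (ℕ × ℕ × ℕ)),
      s.1 ≤ t.1 ∧ s.2.1 ≤ t.2.1 ∧ s.2.2 ≤ t.2.2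

open Pool.Agent.KS6_96.MBG Pool.Agent.KS6_96.MBW

theorem mb_iff {I J K : ℕ} (B : Finset (Arr I J K)) : IsMarkovBasis B ↔ MB B :=
  ⟨fun h => ⟨h.1, fun u v h1 h2 h3 => h.2 u v ⟨h1, h2, h3⟩⟩,
    fun h => ⟨h.1, fun u v hs => h.2 u v hs.1 hs.2.1 hs.2.2⟩⟩

theorem min_iff {I J K : ℕ} (B : Finset (Arr I J K)) :
    IsMinimalBasis B ↔ MB B ∧ ∀ C, C ⊂ B → ¬ MB C := by
  unfold IsMinimalBasis
  simp only [mb_iff]

theorem exists_minimal (I J K : ℕ) : ∃ B : Finset (Arr I J K), IsMinimalBasis B := by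
  obtain ⟨B0, hB0⟩ := exists_MB I J K
  obtain ⟨B, _, hB, hBmin⟩ := exists_min B0 hB0
  exact ⟨B, (min_iff B).2 ⟨hB, hBmin⟩⟩

theorem distinct_of_wit {I J K : ℕ} (h : Wit I J K) : DistinctBases I J K := by
  have h0 := not_uq h
  unfold UQ at h0
  push Not at h0
  obtain ⟨B, B', hB, hB', m, hm⟩ := h0
  have hB1 := (min_iff B).2 hB
  have hB1' := (min_iff B').2 hB'
  rcases hm with ⟨h1, h2⟩ | ⟨h1, h2⟩
  · rcases h1 with h1 | h1
    · exact ⟨B, B', hB1, hB1', m, h1, h2.1, h2.2⟩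
    · exact ⟨B, B', hB1, hB1', -m, h1, h2.2, by rw [neg_neg]; exact h2.1⟩
  · rcases h2 with h2 | h2
    · exact ⟨B', B, hB1', hB1, m, h2, h1.1, h1.2⟩
    · exact ⟨B', B, hB1', hB1, -m, h2, h1.2, by rw [neg_neg]; exact h1.1⟩

theorem wit_of_large {I J K : ℕ} (h : Large I J K) : Wit I J K := by
  obtain ⟨s, hs, t, ht, h1, h2, h3⟩ := h
  have hw : Wit t.1 t.2.1 t.2.2 := by
    simp only [List.mem_cons, List.not_mem_nil, or_false] at hs
    rcases hs with rfl | rfl | rfl | rfl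
    · exact Pool.Agent.KS6_96.MB3.wit.mono h1 h2 h3
    · exact Pool.Agent.KS6_96.MB4.wit.mono h1 h2 h3
    · exact Pool.Agent.KS6_96.MB46.wit.mono h1 h2 h3
    · exact Pool.Agent.KS6_96.MB5.wit.mono h1 h2 h3
  simp only [List.mem_cons, List.not_mem_nil, or_false] at ht
  rcases ht with rfl | rfl | rfl | rfl | rfl | rfl
  · exact hw
  · exact hw.swap23
  · exact hw.swap12
  · exact hw.swap23.swap12
  · exact hw.swap12.swap23
  · exact hw.swap12.swap23.swap12

theorem unique_small {I J K : ℕ} (h : I ≤ 2 ∨ J ≤ 2 ∨ K ≤ 2) : UniqueBasis I J K := by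
  refine ⟨exists_minimal I J K, fun B B' hB hB' m => ?_⟩
  rw [min_iff] at hB hB'
  exact Pool.Agent.KS6_96.MBU.unique_two h B B' hB.1 hB.2 hB'.1 hB'.2 m

theorem not_unique {I J K : ℕ} (h : DistinctBases I J K) : ¬ UniqueBasis I J K := by
  obtain ⟨B, B', hB, hB', m, hm, h1, h2⟩ := h
  intro hU
  rcases (hU.2 B B' hB hB' m).1 (Or.inl hm) with h | h
  · exact h1 h
  · exact h2 h

/-- The minimal Markov basis of the no-three-way interaction model is unique (up to signs) for all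
tables with a side at most two, and is not unique for any size dominating, up to the order of the
sides, `3 × 7 × 10`, `4 × 5 × 10`, `4 × 6 × 8` or `5 × 5 × 6`. Hence `I`-layer tables of all sizes have unique
minimal Markov bases exactly when `I ≤ 2`. -/
theorem result :
    (∀ I J K : ℕ, (I ≤ 2 ∨ J ≤ 2 ∨ K ≤ 2) → UniqueBasis I J K) ∧
    (∀ I J K : ℕ, Large I J K → DistinctBases I J K) ∧
    (∀ I : ℕ, (∀ J K : ℕ, UniqueBasis I J K) ↔ I ≤ 2) := by
  refine ⟨fun I J K h => unique_small h, fun I J K h => distinct_of_wit (wit_of_large h),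
    fun I => ⟨fun h => ?_, fun h J K => unique_small (Or.inl h)⟩⟩
  by_contra hI
  refine not_unique (distinct_of_wit (wit_of_large ?_)) (h 7 10)
  exact ⟨(3, 7, 10), by simp, (I, 7, 10), by simp, by show 3 ≤ I; omega, le_refl _, le_refl _⟩

end Pool.Agent.Results.MP_d7b467_co.SizeThreshold
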